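import Pool.Agent.R852.LK.Fin

/-!
# Rank two bundles on projective spaces: the number of the exceptional discriminants

The starting theorem `MP_b01859_ag.FewExceptionalClasses` (in `R852/LK/Fin`) in terms of the discriminant
`D` alone, for all dimensions `n ≥ |D| ^ (1 / A)` at the same time.
-/

set_option autoImplicit false

namespace Pool.Agent.T63.RB

open Filter Finset
open Pool.Agent.R920.CH (RiemannRoch poly2)
open Pool.Agent.R852.LK (IsDisc count)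

/-- For ALL `n` with `|D| ≤ n ^ A`, all pairs of integers `c₁`, `c₂` of discriminant `c₁² - 4 c₂ = D` which
satisfy the Riemann-Roch conditions on `ℙ^n` (the Chern classes of the bundles of rank two do) are the
Chern classes `a + b`, `a b` of a direct sum of two line bundles. -/
def Split (A : ℝ) (D : ℤ) : Prop :=
  ∀ n : ℕ, |(D : ℝ)| ≤ (n : ℝ) ^ A → ∀ c₁ c₂ : ℤ, RiemannRoch n (poly2 c₁ c₂) →
    c₁ ^ 2 - 4 * c₂ = D → ∃ a b : ℤ, c₁ = a + b ∧ c₂ = a * b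

theorem rr_mono {n m : ℕ} (h : m ≤ n) {P : Polynomial ℤ} (hP : RiemannRoch n P) : RiemannRoch m P :=
  fun f hf hd => hP f hf (hd.trans h)

theorem split_of_square {c₁ c₂ : ℤ} (h : IsSquare (c₁ ^ 2 - 4 * c₂)) :
    ∃ a b : ℤ, c₁ = a + b ∧ c₂ = a * b := by
  obtain ⟨d, hd⟩ := h
  have h1 : (2 : ℤ) ∣ c₁ - d := by
    have h2 : (c₁ - d) * (c₁ + d) = 4 * c₂ := by linear_combination hd
    have h3 : (c₁ - d) % 2 = 0 ∨ (c₁ - d) % 2 = 1 := by omega
    rcases h3 with h3 | h3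
    · exact Int.dvd_of_emod_eq_zero h3
    · exfalso
      obtain ⟨k, hk⟩ : ∃ k, c₁ - d = 2 * k + 1 := ⟨(c₁ - d) / 2, by omega⟩
      have h4 : c₁ + d = 2 * (k + d) + 1 := by linarith
      rw [hk, h4] at h2
      have h5 : (2 * k + 1) * (2 * (k + d) + 1) = 2 * (2 * k * (k + d) + k + (k + d)) + 1 := by ring
      rw [h5] at h2
      omega
  obtain ⟨b, hb⟩ := h1
  refine ⟨d + b, b, by linarith, ?_⟩
  have h2 : c₁ = d + 2 * b := by linarith
  have h3 : 4 * c₂ = 4 * ((d + b) * b) := by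
    have h4 : 4 * c₂ = c₁ ^ 2 - d * d := by linarith
    rw [h4, h2]
    ring
  linarith

theorem not_split {A : ℝ} {D : ℤ} (h : ¬ Split A D) :
    ∃ n : ℕ, |(D : ℝ)| ≤ (n : ℝ) ^ A ∧ ¬ IsSquare D ∧ IsDisc n D := by
  unfold Split at h
  push Not at h
  obtain ⟨n, h1, c₁, c₂, h2, h3, h4⟩ := h
  refine ⟨n, h1, fun hs => ?_, c₁, c₂, h2, h3⟩
  rw [← h3] at hs
  obtain ⟨a, b, ha, hb⟩ := split_of_square hs
  exact h4 a b ha hb

theorem finite_box (P : ℤ → Prop) (X : ℝ) : {D : ℤ | P D ∧ |(D : ℝ)| ≤ X}.Finite := by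
  refine (Set.finite_Icc (-⌈X⌉) ⌈X⌉).subset ?_
  rintro D ⟨_, hD⟩
  have h1 := abs_le.1 hD
  have h2 := Int.le_ceil X
  constructor
  · have : ((-⌈X⌉ : ℤ) : ℝ) ≤ (D : ℝ) := by push_cast; linarith [h1.1]
    exact_mod_cast this
  · have : (D : ℝ) ≤ ((⌈X⌉ : ℤ) : ℝ) := by linarith [h1.2]
    exact_mod_cast this

theorem ncard_box (P : ℤ → Prop) (X : ℝ) (hX : 0 ≤ X) :
    ({D : ℤ | P D ∧ |(D : ℝ)| ≤ X}.ncard : ℝ) ≤ 2 * X + 1 := by
  have h1 : {D : ℤ | P D ∧ |(D : ℝ)| ≤ X} ⊆ ((Icc (-⌊X⌋) ⌊X⌋ : Finset ℤ) : Set ℤ) := by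
    rintro D ⟨_, hD⟩
    have h1 := abs_le.1 hD
    rw [Finset.coe_Icc, Set.mem_Icc]
    refine ⟨?_, Int.le_floor.2 h1.2⟩
    have : -D ≤ ⌊X⌋ := Int.le_floor.2 (by push_cast; linarith [h1.1])
    linarith
  have h2 := Set.ncard_le_ncard h1 (Finset.finite_toSet _)
  rw [Set.ncard_coe_finset, Int.card_Icc] at h2
  have h3 : (((⌊X⌋ + 1 - -⌊X⌋).toNat : ℕ) : ℝ) ≤ 2 * X + 1 := by
    have h4 : (0 : ℤ) ≤ ⌊X⌋ := Int.floor_nonneg.2 hX
    have h5 : (((⌊X⌋ + 1 - -⌊X⌋).toNat : ℕ) : ℤ) = 2 * ⌊X⌋ + 1 := by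
      rw [Int.toNat_of_nonneg (by linarith)]
      ring
    have h6 : (((⌊X⌋ + 1 - -⌊X⌋).toNat : ℕ) : ℝ) = 2 * (⌊X⌋ : ℝ) + 1 := by exact_mod_cast h5
    rw [h6]
    linarith [Int.floor_le X]
  exact le_trans (by exact_mod_cast h2) h3

/-- the exponent -/
noncomputable def expo (A : ℝ) : ℝ := max 0 (1 / 2 - 2 * Real.exp (1 / 2) / A)

theorem expo_nonneg (A : ℝ) : 0 ≤ expo A := le_max_left _ _

/-- the members of a dyadic block -/
theorem block {A ε : ℝ} (hA : 0 < A) (hε : 0 < ε) : ∃ Y₀ C : ℝ, 1 ≤ Y₀ ∧ 0 ≤ C ∧ ∀ Y : ℝ, Y₀ ≤ Y →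
    ({D : ℤ | (¬ Split A D ∧ Y / 2 < |(D : ℝ)|) ∧ |(D : ℝ)| ≤ Y}.ncard : ℝ) ≤ C * Y ^ (expo A + ε) := by
  set ε' : ℝ := min (ε * A) 1 with hε'
  have hε0 : 0 < ε' := lt_min (by positivity) one_pos
  set c : ℝ := 2 * Real.exp (1 / 2) - ε' with hc
  have hc0 : 0 < c := by
    have h1 : ε' ≤ 1 := min_le_right _ _
    have h2 : (1 : ℝ) ≤ Real.exp (1 / 2) := Real.one_le_exp (by norm_num)
    rw [hc]
    linarith
  obtain ⟨N, hN⟩ := eventually_atTop.1 (count (A + 1) ε' hε0)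
  refine ⟨2 * (((max N 2 : ℕ) : ℝ)) ^ A, (2 : ℝ) ^ (c / A), ?_, by positivity, fun Y hY => ?_⟩
  · have h1 : (1 : ℝ) ≤ ((max N 2 : ℕ) : ℝ) ^ A := Real.one_le_rpow (by
      have : (1 : ℕ) ≤ max N 2 := le_trans (by norm_num) (le_max_right N 2)
      exact_mod_cast this) hA.le
    linarith
  have hNp : (0 : ℝ) < ((max N 2 : ℕ) : ℝ) := by
    have : (0 : ℕ) < max N 2 := lt_of_lt_of_le (by norm_num) (le_max_right N 2)
    exact_mod_cast this
  have hY2 : (((max N 2 : ℕ) : ℝ)) ^ A ≤ Y / 2 := by linarith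
  have hYp : 0 < Y / 2 := lt_of_lt_of_le (Real.rpow_pos_of_pos hNp A) hY2
  set m : ℕ := ⌈(Y / 2) ^ (1 / A)⌉₊ with hm
  have hroot : ((max N 2 : ℕ) : ℝ) ≤ (Y / 2) ^ (1 / A) := by
    have h1 := Real.rpow_le_rpow (by positivity) hY2 (show 0 ≤ 1 / A by positivity)
    rwa [← Real.rpow_mul hNp.le, mul_one_div_cancel hA.ne', Real.rpow_one] at h1
  have hmr : (Y / 2) ^ (1 / A) ≤ (m : ℝ) := Nat.le_ceil _
  have hmN : max N 2 ≤ m := by exact_mod_cast hroot.trans hmr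
  have hm2 : (2 : ℝ) ≤ m := by exact_mod_cast (le_max_right N 2).trans hmN
  have hm0 : (0 : ℝ) < m := by linarith
  have hYm : Y / 2 ≤ (m : ℝ) ^ A := by
    have h1 := Real.rpow_le_rpow (by positivity) hmr hA.le
    rwa [← Real.rpow_mul hYp.le, one_div_mul_cancel hA.ne', Real.rpow_one] at h1
  have hYm1 : Y ≤ (m : ℝ) ^ (A + 1) := by
    rw [Real.rpow_add hm0, Real.rpow_one]
    have := Real.rpow_pos_of_pos hm0 A
    nlinarith
  have hfin := finite_box (fun D => ¬ Split A D ∧ Y / 2 < |(D : ℝ)|) Y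
  have hcount := hN m ((le_max_left N 2).trans hmN) Y (by linarith) hYm1 hfin.toFinset (by
    intro D hD
    rw [Set.Finite.mem_toFinset] at hD
    obtain ⟨⟨h1, h2⟩, h3⟩ := hD
    obtain ⟨n, h4, h5, h6⟩ := not_split h1
    refine ⟨h3, h5, ?_⟩
    have h7 : m ≤ n := by
      rw [hm]
      apply Nat.ceil_le.2
      have h8 : Y / 2 ≤ (n : ℝ) ^ A := (h2.le).trans h4
      have h9 := Real.rpow_le_rpow hYp.le h8 (show 0 ≤ 1 / A by positivity)
      rwa [← Real.rpow_mul (Nat.cast_nonneg n), mul_one_div_cancel hA.ne', Real.rpow_one] at h9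
    obtain ⟨c₁, c₂, h8, h9⟩ := h6
    exact ⟨c₁, c₂, rr_mono h7 h8, h9⟩)
  rw [← Set.ncard_eq_toFinset_card _ hfin] at hcount
  refine hcount.trans ?_
  have hmc : (Y / 2) ^ (c / A) ≤ (m : ℝ) ^ c := by
    have h1 := Real.rpow_le_rpow (by positivity) hmr hc0.le
    rwa [← Real.rpow_mul hYp.le, one_div_mul_eq_div] at h1
  have hY0 : 0 < Y := by linarith
  have hY1 : 1 ≤ Y := by
    have h1 : (1 : ℝ) ≤ ((max N 2 : ℕ) : ℝ) ^ A := Real.one_le_rpow (by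
      have : (1 : ℕ) ≤ max N 2 := le_trans (by norm_num) (le_max_right N 2)
      exact_mod_cast this) hA.le
    linarith
  calc √Y / (m : ℝ) ^ c ≤ √Y / (Y / 2) ^ (c / A) :=
        div_le_div_of_nonneg_left (Real.sqrt_nonneg _) (by positivity) hmc
    _ = (2 : ℝ) ^ (c / A) * Y ^ (1 / 2 - c / A) := by
        rw [Real.sqrt_eq_rpow, Real.div_rpow hY0.le (by norm_num), Real.rpow_sub hY0]
        field_simp
    _ ≤ (2 : ℝ) ^ (c / A) * Y ^ (expo A + ε) := by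
        apply mul_le_mul_of_nonneg_left _ (by positivity)
        apply Real.rpow_le_rpow_of_exponent_le hY1
        have h1 : ε' / A ≤ ε := by
          rw [div_le_iff₀ hA]
          exact min_le_left _ _
        have h2 : 1 / 2 - 2 * Real.exp (1 / 2) / A ≤ expo A := le_max_right _ _
        rw [hc, sub_div]
        linarith

/-- **The number of the exceptional discriminants.** -/
theorem counts {A ε : ℝ} (hA : 0 < A) (hε : 0 < ε) : ∃ C : ℝ, ∀ X : ℝ, 1 ≤ X →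
    {D : ℤ | ¬ Split A D ∧ |(D : ℝ)| ≤ X}.Finite ∧
      ({D : ℤ | ¬ Split A D ∧ |(D : ℝ)| ≤ X}.ncard : ℝ) ≤ C * X ^ (expo A + ε) := by
  obtain ⟨Y₀, C, hY₀, hC, h⟩ := block hA hε
  set σ : ℝ := expo A + ε with hσ
  have hσ0 : 0 < σ := by
    have := expo_nonneg A
    linarith
  have h2σ : (1 : ℝ) < 2 ^ σ := Real.one_lt_rpow (by norm_num) hσ0
  -- the constant
  obtain ⟨K, hK0, hK1, hK2⟩ : ∃ K : ℝ, 0 ≤ K ∧ 2 * Y₀ + 1 ≤ K ∧ K / 2 ^ σ + C ≤ K := by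
    have h3 : 0 < 1 - 1 / (2 : ℝ) ^ σ := by
      rw [sub_pos, div_lt_one (by positivity)]
      exact h2σ
    refine ⟨max (2 * Y₀ + 1) (C / (1 - 1 / 2 ^ σ)), le_trans (by linarith) (le_max_left _ _),
      le_max_left _ _, ?_⟩
    have h4 := le_max_right (2 * Y₀ + 1) (C / (1 - 1 / (2 : ℝ) ^ σ))
    rw [div_le_iff₀ h3] at h4
    have h5 : max (2 * Y₀ + 1) (C / (1 - 1 / (2 : ℝ) ^ σ)) / 2 ^ σ =
      max (2 * Y₀ + 1) (C / (1 - 1 / (2 : ℝ) ^ σ)) * (1 / 2 ^ σ) := by ring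
    rw [h5]
    linarith
  refine ⟨K, fun X hX => ⟨finite_box _ X, ?_⟩⟩
  have key : ∀ k : ℕ, ∀ X : ℝ, 1 ≤ X → X ≤ 2 ^ k * Y₀ →
      ({D : ℤ | ¬ Split A D ∧ |(D : ℝ)| ≤ X}.ncard : ℝ) ≤ K * X ^ σ := by
    intro k
    induction k with
    | zero =>
      intro X hX hXY
      rw [pow_zero, one_mul] at hXY
      refine (ncard_box _ X (by linarith)).trans ?_
      have h1 : (1 : ℝ) ≤ X ^ σ := Real.one_le_rpow hX hσ0.le
      calc 2 * X + 1 ≤ 2 * Y₀ + 1 := by linarith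
        _ ≤ K * 1 := by linarith
        _ ≤ K * X ^ σ := mul_le_mul_of_nonneg_left h1 hK0
    | succ k ih =>
      intro X hX hXY
      rcases le_or_gt X (2 ^ k * Y₀) with h1 | h1
      · exact ih X hX h1
      have hXY0 : Y₀ < X := by
        have h2 : (1 : ℝ) ≤ 2 ^ k := one_le_pow₀ (by norm_num)
        nlinarith
      have hsub : {D : ℤ | ¬ Split A D ∧ |(D : ℝ)| ≤ X} ⊆
          {D : ℤ | ¬ Split A D ∧ |(D : ℝ)| ≤ X / 2} ∪
          {D : ℤ | (¬ Split A D ∧ X / 2 < |(D : ℝ)|) ∧ |(D : ℝ)| ≤ X} := by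
        rintro D ⟨h2, h3⟩
        rcases le_or_gt |(D : ℝ)| (X / 2) with h4 | h4
        · exact Or.inl ⟨h2, h4⟩
        · exact Or.inr ⟨⟨h2, h4⟩, h3⟩
      have h2 := Set.ncard_le_ncard hsub ((finite_box _ _).union (finite_box _ _))
      have h3 := (Set.ncard_union_le {D : ℤ | ¬ Split A D ∧ |(D : ℝ)| ≤ X / 2}
          {D : ℤ | (¬ Split A D ∧ X / 2 < |(D : ℝ)|) ∧ |(D : ℝ)| ≤ X})
      have h4 : ({D : ℤ | ¬ Split A D ∧ |(D : ℝ)| ≤ X / 2}.ncard : ℝ) ≤ K * (X / 2) ^ σ := by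
        rcases le_or_gt 1 (X / 2) with h5 | h5
        · apply ih (X / 2) h5
          rw [pow_succ] at hXY
          linarith
        · have h6 := ncard_box (fun D => ¬ Split A D) (X / 2) (by linarith)
          have h7 : (1 : ℝ) / 2 ≤ X / 2 := by linarith
          have h8 : (1 : ℝ) / 2 ^ σ ≤ (X / 2) ^ σ := by
            rw [← Real.one_rpow σ, ← Real.div_rpow zero_le_one (by norm_num)]
            exact Real.rpow_le_rpow (by norm_num) h7 hσ0.le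
          -- there are at most three such `D`, all of them squares or not discriminants
          have h9 : {D : ℤ | ¬ Split A D ∧ |(D : ℝ)| ≤ X / 2} = ∅ := by
            rw [Set.eq_empty_iff_forall_notMem]
            rintro D ⟨h10, h11⟩
            obtain ⟨n, _, h12, _⟩ := not_split h10
            apply h12
            have h13 : |(D : ℝ)| < 1 := lt_of_le_of_lt h11 h5
            have h14 : D = 0 := by
              have h15 : |D| < 1 := by exact_mod_cast h13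
              exact Int.abs_lt_one_iff.1 h15
            rw [h14]
            exact ⟨0, by ring⟩
          rw [h9, Set.ncard_empty]
          have : 0 ≤ K * (X / 2) ^ σ := mul_nonneg hK0 (by positivity)
          simpa using this
      have h5 := h X hXY0.le
      have hX0 : 0 < X := by linarith
      calc ({D : ℤ | ¬ Split A D ∧ |(D : ℝ)| ≤ X}.ncard : ℝ) ≤
          ({D : ℤ | ¬ Split A D ∧ |(D : ℝ)| ≤ X / 2}.ncard : ℝ) +
          ({D : ℤ | (¬ Split A D ∧ X / 2 < |(D : ℝ)|) ∧ |(D : ℝ)| ≤ X}.ncard : ℝ) := by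
            exact_mod_cast h2.trans h3
        _ ≤ K * (X / 2) ^ σ + C * X ^ σ := add_le_add h4 h5
        _ = (K / 2 ^ σ + C) * X ^ σ := by
            rw [Real.div_rpow hX0.le (by norm_num)]
            ring
        _ ≤ K * X ^ σ := mul_le_mul_of_nonneg_right hK2 (by positivity)
  obtain ⟨k, hk⟩ := pow_unbounded_of_one_lt X (show (1 : ℝ) < 2 by norm_num)
  exact key k X hX (by
    have h1 : (2 : ℝ) ^ k * 1 ≤ 2 ^ k * Y₀ := mul_le_mul_of_nonneg_left hY₀ (by positivity)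
    linarith)

/-- the form needed for the engines -/
theorem countε {A : ℝ} (hA : 0 < A) :
    ∀ η : ℝ, 0 < η → ∃ C : ℝ, ∀ X : ℝ, 1 ≤ X →
      {D : ℤ | (True ∧ ¬ Split A D) ∧ |(D : ℝ)| ≤ X}.Finite ∧
      ({D : ℤ | (True ∧ ¬ Split A D) ∧ |(D : ℝ)| ≤ X}.ncard : ℝ) ≤ C * X ^ (expo A + η) := by
  intro η hη
  obtain ⟨C, hC⟩ := counts hA hη
  refine ⟨C, fun X hX => ?_⟩
  have e : {D : ℤ | (True ∧ ¬ Split A D) ∧ |(D : ℝ)| ≤ X} = {D : ℤ | ¬ Split A D ∧ |(D : ℝ)| ≤ X} := by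
    ext D
    simp
  rw [e]
  exact hC X hX

end Pool.Agent.T63.RB
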